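import Mathlib
import Pool.Agent.Lib.helper18.Schur

namespace Pool.Agent.Results.MP_de5a3f_an.Yes

open Filter Topology Finset
open scoped ENNReal NNReal

/-- the norm given by a family of finite sets -/
noncomputable def nrm (𝓕 : Set (Finset (List Bool))) (x : List Bool → ℝ) : ℝ≥0∞ :=
  ⨆ F ∈ 𝓕, ∑ k ∈ F, ‖x k‖ₑ

/-- the space on `H`: vectors vanishing off `H` that are limits of their finite truncations -/
def XF (𝓕 : Set (Finset (List Bool))) (H : Set (List Bool)) : Set (List Bool → ℝ) :=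
  {x | (∀ t ∉ H, x t = 0) ∧ ∀ ε > 0, ∃ s : Finset (List Bool),
    nrm 𝓕 ((s : Set (List Bool))ᶜ.indicator x) < ε}

/-- the space on `H` contains a sequence equivalent to the unit vector basis of `c₀` -/
def HasC0 (𝓕 : Set (Finset (List Bool))) (H : Set (List Bool)) : Prop :=
  ∃ u : ℕ → List Bool → ℝ, (∀ n, u n ∈ XF 𝓕 H) ∧ ∃ c C : ℝ≥0, 0 < c ∧
    ∀ (s : Finset ℕ) (a : ℕ → ℝ), c * ⨆ n ∈ s, ‖a n‖ₑ ≤ nrm 𝓕 (∑ n ∈ s, a n • u n) ∧
      nrm 𝓕 (∑ n ∈ s, a n • u n) ≤ C * ⨆ n ∈ s, ‖a n‖ₑ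

def Fam : Set (Finset (List Bool)) :=
  {F | IsAntichain (· <:+ ·) (F : Set (List Bool)) ∨ ∀ t ∈ F, #F ≤ t.length}

lemma N_le {𝒜 : Finset (Set (List Bool))} (hA : ∀ A ∈ 𝒜, IsAntichain (· <:+ ·) A)
    {x : List Bool → ℝ} (hx : ∀ t ∉ ⋃₀ (𝒜 : Set (Set (List Bool))), x t = 0) :
    ∑' t, ‖x t‖ₑ ≤ #𝒜 * nrm Fam x := by
  classical
  rw [ENNReal.tsum_eq_iSup_sum]
  refine iSup_le fun s => ?_
  calc _ ≤ ∑ t ∈ s, ∑ A ∈ 𝒜, if t ∈ A then ‖x t‖ₑ else 0 := sum_le_sum fun t _ => by
        by_cases h : t ∈ ⋃₀ (𝒜 : Set (Set (List Bool)))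
        · obtain ⟨A, h1, h2⟩ := h
          exact le_trans (by simp [h2]) (single_le_sum (fun _ _ => zero_le) h1)
        · simp [hx t h]
    _ ≤ ∑ A ∈ 𝒜, nrm Fam x := by
        rw [sum_comm]
        refine sum_le_sum fun A h => ?_
        rw [← sum_filter]
        exact le_iSup₂_of_le _ (Or.inl ((hA A h).subset fun t ht => (mem_filter.1 ht).2)) le_rfl
    _ = _ := by simp

lemma noC0 {𝒜 : Finset (Set (List Bool))} (hA : ∀ A ∈ 𝒜, IsAntichain (· <:+ ·) A) :
    ¬ HasC0 Fam (⋃₀ (𝒜 : Set (Set (List Bool)))) := by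
  rintro ⟨u, hu, c, C, hc, h⟩
  have h1 : ∀ (s : Finset ℕ) (a : ℕ → ℝ), (∀ n, |a n| ≤ 1) →
      ∑' t, ‖(∑ n ∈ s, a n • u n) t‖ₑ ≤ (#𝒜 * C : ℝ≥0) := fun s a ha => by
    refine (N_le hA fun t ht => by simp [(hu _).1 t ht]).trans ?_
    push_cast
    refine mul_le_mul_right ((h s a).2.trans (mul_le_of_le_one_right' (iSup₂_le fun n _ => ?_))) _
    rw [← ofReal_norm]; exact ENNReal.ofReal_le_one.2 (ha n)
  have hs : ∀ n, Summable (u n) := fun n => Summable.of_norm
    (tsum_enorm_ne_top_iff_summable_norm.1 (by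
      simpa using ne_top_of_le_ne_top ENNReal.coe_ne_top (h1 {n} 1 (by simp))))
  have h2 := Lib.helper18.Schur.schur1 u hs fun ε hε => by
    have hb : ∀ (y : List Bool → ℝ) k, ‖ε k * y k‖ ≤ |y k| := fun y k => by
      rw [Real.norm_eq_abs, abs_mul]; exact mul_le_of_le_one_left (abs_nonneg _) (hε k)
    refine Summable.tendsto_atTop_zero (Summable.of_abs (summable_of_sum_le
      (c := (#𝒜 * C : ℝ≥0)) (fun _ => abs_nonneg _) fun s => ?_))
    set a : ℕ → ℝ := fun n => SignType.sign (∑' k, ε k * u n k) with ha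
    have e : ∑ n ∈ s, |∑' k, ε k * u n k| = ∑' k, ε k * (∑ n ∈ s, a n • u n) k := by
      simp only [Finset.sum_apply, Pi.smul_apply, smul_eq_mul, mul_sum, mul_left_comm (ε _)]
      rw [Summable.tsum_finsetSum fun n _ =>
        (Summable.of_norm_bounded (hs n).abs (hb _)).mul_left _]
      exact sum_congr rfl fun n _ => by rw [tsum_mul_left, ha, sign_mul_self]
    have h3 := (enorm_tsum_le_tsum_enorm (f := fun k => ε k * (∑ n ∈ s, a n • u n) k)).trans
      ((ENNReal.tsum_le_tsum fun k => by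
        rw [← ofReal_norm, ← ofReal_norm]; exact ENNReal.ofReal_le_ofReal (hb _ k)).trans
        (h1 s a fun n => by
          simp only [ha]; rcases SignType.sign _ with _ | _ | _ <;> simp))
    rw [e]
    exact (le_abs_self _).trans (by exact_mod_cast ENNReal.coe_le_coe.1 h3)
  obtain ⟨n, hn⟩ := (h2.eventually (gt_mem_nhds (NNReal.coe_pos.2 hc))).exists
  have h3 : (c : ℝ≥0∞) ≤ ENNReal.ofReal (∑' k, |u n k|) := by
    have h4 : (c : ℝ≥0∞) ≤ nrm Fam (u n) := by simpa using (h {n} 1).1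
    refine h4.trans (iSup₂_le fun F _ => ?_)
    rw [ENNReal.ofReal_tsum_of_nonneg (fun _ => abs_nonneg _) (hs n).abs]
    simp only [← ofReal_norm]
    exact ENNReal.sum_le_tsum F
  rw [← ENNReal.ofReal_coe_nnreal, ENNReal.ofReal_le_ofReal_iff
    (tsum_nonneg fun _ => abs_nonneg _)] at h3
  linarith

lemma chains {H : Set (List Bool)} (hH : ¬ ∃ 𝒜 : Set (Set (List Bool)), 𝒜.Finite ∧
    (∀ A ∈ 𝒜, IsAntichain (· <:+ ·) A) ∧ H = ⋃₀ 𝒜) (m : ℕ) :
    ∃ (C : Finset (List Bool)) (t : List Bool), #C = m ∧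
      ∀ s ∈ C, s ∈ H ∧ s <:+ t ∧ m ≤ s.length := by
  classical
  let r : List Bool → Finset (List Bool) := fun t => t.tails.toFinset.filter (· ∈ H)
  have hr : ∀ s t, s ∈ r t ↔ s <:+ t ∧ s ∈ H := fun s t => by simp [r]
  obtain ⟨t, ht⟩ : ∃ t, 2 * m ≤ #(r t) := by
    by_contra! h
    refine hH ⟨(fun j => {t ∈ H | #(r t) = j}) '' Set.Iio (2 * m), (Set.finite_Iio _).image _,
      ?_, ?_⟩
    · rintro _ ⟨j, -, rfl⟩ s hs t ht hne hst
      have h1 : r s ⊆ r t := fun w hw => (hr _ _).2 ⟨((hr _ _).1 hw).1.trans hst, ((hr _ _).1 hw).2⟩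
      have h2 : r s = r t := eq_of_subset_of_card_le h1 (by rw [hs.2, ht.2])
      have h3 : t ∈ r s := h2 ▸ (hr _ _).2 ⟨List.suffix_refl t, ht.1⟩
      exact hne (hst.eq_of_length_le ((hr _ _).1 h3).1.length_le)
    · ext t
      exact ⟨fun ht => ⟨_, ⟨_, h t, rfl⟩, ht, rfl⟩, by rintro ⟨_, ⟨j, -, rfl⟩, ht⟩; exact ht.1⟩
  have h1 : #((r t).filter fun s => ¬ m ≤ s.length) ≤ m := by
    refine (card_le_card_of_injOn List.length (t := range m) (fun s hs => ?_) ?_).trans (by simp)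
    · simpa using (mem_filter.1 hs).2
    · intro a ha b hb hab
      have h2 := ((hr _ _).1 (mem_filter.1 ha).1).1
      have h3 := ((hr _ _).1 (mem_filter.1 hb).1).1
      exact (List.suffix_of_suffix_length_le h2 h3 hab.le).eq_of_length hab
  have h2 := card_filter_add_card_filter_not (s := r t) fun s => m ≤ s.length
  obtain ⟨C, h3, h4⟩ := exists_subset_card_eq (s := (r t).filter fun s => m ≤ s.length) (n := m)
    (by omega)
  exact ⟨C, t, h4, fun s hs => ⟨((hr _ _).1 (mem_filter.1 (h3 hs)).1).2,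
    ((hr _ _).1 (mem_filter.1 (h3 hs)).1).1, (mem_filter.1 (h3 hs)).2⟩⟩

theorem result : ∃ 𝓕 : Set (Finset (List Bool)), (∀ t, ∃ F ∈ 𝓕, t ∈ F) ∧
    ∀ H : Set (List Bool), ¬ HasC0 𝓕 H ↔ ∃ 𝒜 : Set (Set (List Bool)), 𝒜.Finite ∧
      (∀ A ∈ 𝒜, IsAntichain (· <:+ ·) A) ∧ H = ⋃₀ 𝒜 := by
  classical
  refine ⟨Fam, fun t => ⟨{t}, Or.inl (by simpa using IsAntichain.singleton), by simp⟩,
    fun H => ⟨fun h => ?_, ?_⟩⟩
  swap
  · rintro ⟨𝒜, h1, h2, rfl⟩
    simpa using noC0 (𝒜 := h1.toFinset) (by simpa using h2)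
  by_contra hH
  choose D T hD hT using chains hH
  let M : ℕ → ℕ := fun n => Nat.rec 0 (fun n M => M + (T (2 ^ n * (M + 1))).length) n
  let m : ℕ → ℕ := fun n => 2 ^ n * (M n + 1)
  have hM : Monotone M := monotone_nat_of_le_succ fun n => Nat.le_add_right _ _
  have hm : ∀ n, M n + 1 ≤ m n := fun n => Nat.le_mul_of_pos_left _ (by positivity)
  have hm0 : ∀ n, (0 : ℝ) < m n := fun n => by exact_mod_cast (Nat.succ_pos _).trans_le (hm n)
  have hup : ∀ n, ∀ s ∈ D (m n), s.length ≤ M (n + 1) := fun n s hs =>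
    (hT _ s hs).2.1.length_le.trans (Nat.le_add_left _ _)
  have hdis : ∀ i j s, s ∈ D (m i) → s ∈ D (m j) → i = j := fun i j s h1 h2 => by
    have key : ∀ i j, i < j → s ∈ D (m i) → s ∈ D (m j) → False := fun i j h h1 h2 => by
      have := hup i s h1
      have := (hT _ s h2).2.2
      have := hm j
      have := hM (Nat.succ_le_of_lt h)
      simp only [Nat.succ_eq_add_one] at *
      omega
    by_contra hne
    rcases lt_or_gt_of_ne hne with h | h
    exacts [key _ _ h h1 h2, key _ _ h h2 h1]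
  refine h ⟨fun n t => if t ∈ D (m n) then 1 / m n else 0, fun n => ⟨fun t ht =>
    if_neg fun h => ht (hT _ t h).1, fun ε hε => ⟨D (m n), lt_of_le_of_lt (iSup₂_le fun F _ =>
      le_of_eq (sum_eq_zero fun t _ => ?_)) hε⟩⟩, 1, 3, one_pos, fun s a => ⟨?_, ?_⟩⟩
  · by_cases ht : t ∈ D (m n) <;> simp [ht]
  · simp only [ENNReal.coe_one, one_mul]
    refine iSup₂_le fun n hn => le_iSup₂_of_le (D (m n))
      (Or.inr fun t ht => (hD _).trans_le (hT _ t ht).2.2) (le_of_eq ?_)
    rw [sum_congr rfl (g := fun _ => ‖a n / m n‖ₑ), sum_const, hD]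
    · rw [← ofReal_norm, ← ofReal_norm, nsmul_eq_mul, ← ENNReal.ofReal_natCast,
        ← ENNReal.ofReal_mul (hm0 n).le, norm_div, Real.norm_natCast, mul_div_cancel₀ _ (hm0 n).ne']
    · intro t ht
      rw [Finset.sum_apply, sum_eq_single_of_mem n hn]
      · simp [ht, div_eq_mul_inv]
      · intro i _ hi
        have : t ∉ D (m i) := fun h => hi (hdis _ _ t h ht)
        simp [this]
  · refine iSup₂_le fun F hF => ?_
    have key : ∃ j, ∀ n ≠ j, (#(F ∩ D (m n)) : ℝ) / m n ≤ (1 / 2) ^ n := by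
      have gen : ∀ n, #(F ∩ D (m n)) ≤ M n + 1 → (#(F ∩ D (m n)) : ℝ) / m n ≤ (1 / 2) ^ n :=
        fun n hn => by
          rw [div_le_iff₀ (hm0 n)]
          have : (1 / 2 : ℝ) ^ n * m n = (M n + 1 : ℕ) := by simp [m]
          rw [this]; exact_mod_cast hn
      rcases hF with hF | hF
      · refine ⟨0, fun n _ => gen n (le_trans (card_le_one.2 fun a ha b hb => ?_) (by omega))⟩
        by_contra hne
        rcases List.suffix_or_suffix_of_suffix (hT _ a (mem_inter.1 ha).2).2.1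
          (hT _ b (mem_inter.1 hb).2).2.1 with h | h
        · exact hF (mem_inter.1 ha).1 (mem_inter.1 hb).1 hne h
        · exact hF (mem_inter.1 hb).1 (mem_inter.1 ha).1 (Ne.symm hne) h
      · by_cases hex : ∃ j, (F ∩ D (m j)).Nonempty
        · refine ⟨Nat.find hex, fun n hn => gen n ?_⟩
          rcases lt_or_gt_of_ne hn with h | h
          · simp [not_nonempty_iff_eq_empty.1 (Nat.find_min hex h)]
          · obtain ⟨t, ht⟩ := Nat.find_spec hex
            exact (card_le_card inter_subset_left).trans ((hF t (mem_inter.1 ht).1).trans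
              ((hup _ t (mem_inter.1 ht).2).trans ((hM h).trans (Nat.le_succ _))))
        · push Not at hex
          exact ⟨0, fun n _ => gen n (by simp [hex n])⟩
    obtain ⟨j, hj⟩ := key
    have h1 : ∑ n ∈ s, (#(F ∩ D (m n)) : ℝ) / m n ≤ 3 := by
      calc _ ≤ ∑ n ∈ s, ((if n = j then 1 else 0) + (1 / 2 : ℝ) ^ n) := sum_le_sum fun n _ => by
            split_ifs with h
            · have : (#(F ∩ D (m n)) : ℝ) ≤ m n := by
                exact_mod_cast (card_le_card inter_subset_right).trans_eq (hD _)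
              have := (div_le_one (hm0 n)).2 this
              have : (0 : ℝ) ≤ (1 / 2) ^ n := by positivity
              linarith
            · simpa using hj n h
        _ ≤ 1 + 2 := by
            rw [sum_add_distrib]
            refine add_le_add (by rw [sum_ite_eq']; split_ifs <;> simp) ?_
            exact (summable_geometric_two.sum_le_tsum s fun _ _ => by positivity).trans_eq
              tsum_geometric_two
        _ = 3 := by norm_num
    set S := ⨆ n ∈ s, ‖a n‖ₑ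
    calc _ ≤ ∑ t ∈ F, ∑ n ∈ s, (if t ∈ D (m n) then ENNReal.ofReal (1 / m n) else 0) * S :=
          sum_le_sum fun t _ => by
            rw [Finset.sum_apply]
            refine (enorm_sum_le _ _).trans (sum_le_sum fun n hn => ?_)
            rw [Pi.smul_apply, enorm_smul, mul_comm]
            refine mul_le_mul' (le_of_eq ?_) (le_iSup₂_of_le n hn le_rfl)
            beta_reduce
            split_ifs
            · rw [← ofReal_norm, Real.norm_of_nonneg (one_div_pos.2 (hm0 n)).le]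
            · simp
      _ = ENNReal.ofReal (∑ n ∈ s, (#(F ∩ D (m n)) : ℝ) / m n) * S := by
          rw [sum_comm, ENNReal.ofReal_sum_of_nonneg fun _ _ => by positivity, sum_mul]
          refine sum_congr rfl fun n _ => ?_
          rw [← sum_mul, sum_ite_mem, sum_const, nsmul_eq_mul, ← ENNReal.ofReal_natCast,
            ← ENNReal.ofReal_mul (by positivity), mul_one_div]
      _ ≤ _ := mul_le_mul_left (by simpa using ENNReal.ofReal_le_ofReal h1) _

end Pool.Agent.Results.MP_de5a3f_an.Yes
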